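import Pool.Agent.W_c2305b_h77.FatDefs2

/-!
# MP_c2305b_co, FAT: (T1) the grid of directions, (T2) macroscopic turns
-/

set_option autoImplicit false

open MeasureTheory Set Module

namespace C2305bFat

open W82
open C2305b.TL (cr)

private theorem norm_sq_ip (x : V) : ‖x‖ ^ 2 = ip x x := by
  rw [EuclideanSpace.norm_sq_eq]
  simp [Fin.sum_univ_two, ip, sq]

theorem abs_cr_le {u x : V} (hu : ip u u = 1) : |cr u x| ≤ ‖x‖ := by
  apply abs_le_of_sq_le_sq _ (norm_nonneg _)
  rw [norm_sq_ip]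
  have h : ip u u * ip x x = (cr u x) ^ 2 + (ip u x) ^ 2 := by
    simp only [ip, cr]
    ring
  rw [hu, one_mul] at h
  nlinarith [sq_nonneg (ip u x)]

private theorem norm_of_unit {u : V} (hu : ip u u = 1) : ‖u‖ = 1 := by
  have h := norm_sq_ip u
  rw [hu] at h
  have h0 := norm_nonneg u
  nlinarith [sq_nonneg (‖u‖ - 1), sq_nonneg (‖u‖ + 1)]

private theorem cr_sub (u x y : V) : cr u (x - y) = cr u x - cr u y := by
  simp [cr]
  ring

/-- (T1) the grid of directions. -/
theorem grid {τ : ℝ} (hτ : 0 < τ) : ∃ N : Finset V, ∀ u u' : V, ip u u = 1 → ip u' u' = 1 →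
    τ ≤ cr u u' → ∃ m ∈ N, 0 < cr u m ∧ 0 < cr m u' := by
  have hc : IsCompact (Metric.closedBall (0 : V) 2) := isCompact_closedBall _ _
  obtain ⟨t, -, ht, ht2⟩ := hc.finite_cover_balls hτ
  refine ⟨ht.toFinset, fun u u' hu hu' h => ?_⟩
  have hw : u + u' ∈ Metric.closedBall (0 : V) 2 := by
    rw [mem_closedBall_zero_iff]
    calc ‖u + u'‖ ≤ ‖u‖ + ‖u'‖ := norm_add_le _ _
      _ = 2 := by rw [norm_of_unit hu, norm_of_unit hu']; norm_num
  obtain ⟨m, hm, hm2⟩ := mem_iUnion₂.1 (ht2 hw)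
  rw [Metric.mem_ball, dist_eq_norm] at hm2
  refine ⟨m, by simpa using hm, ?_, ?_⟩
  · have h1 := abs_cr_le (x := u + u' - m) hu
    have h2 : cr u (u + u' - m) = cr u u' - cr u m := by
      simp only [cr, PiLp.sub_apply, PiLp.add_apply]
      ring
    rw [h2] at h1
    have h3 := (abs_le.1 h1).2
    linarith
  · have h1 := abs_cr_le (x := u + u' - m) hu'
    have h2 : cr u' (u + u' - m) = cr m u' - cr u u' := by
      simp only [cr, PiLp.sub_apply, PiLp.add_apply]
      ring
    rw [h2] at h1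
    have h3 := (abs_le.1 h1).1
    linarith

/-- (T2) a macroscopic turn is close to a support point of the grid. -/
theorem turn {D : Set V} {τ : ℝ} (hτ : 0 < τ) {u u' m v v' z : V} (hu : Sup D v u)
    (hu' : Sup D v' u') (hv : v ∈ D) (hv' : v' ∈ D) (ht : τ ≤ cr u u') (h1 : 0 < cr u m)
    (h2 : 0 < cr m u') (hz : z ∈ D) (hm : ∀ y ∈ D, 0 ≤ cr m (y - z)) :
    ‖z - v‖ ≤ 2 * ‖v - v'‖ / τ := by
  have hc : 0 < cr u u' := hτ.trans_le ht
  have a0 := hu.2 z hz
  have b0 := hu'.2 z hz
  have m1 := hm v hv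
  have m2 := hm v' hv'
  -- `m = α u + β u'`, in the form `c m = cr m u' u + cr u m u'`
  have e1 : cr u u' * cr m (v - z) = - (cr m u' * cr u (z - v)) - cr u m * cr u' (z - v) := by
    simp only [cr, PiLp.sub_apply]
    ring
  have e2 : cr u u' * cr m (v' - z) = - (cr m u' * cr u (z - v')) - cr u m * cr u' (z - v') := by
    simp only [cr, PiLp.sub_apply]
    ring
  have e3 : cr u' (z - v) = cr u' (z - v') - cr u' (v - v') := by
    simp only [cr, PiLp.sub_apply]
    ring
  have e4 : cr u (z - v') = cr u (z - v) + cr u (v - v') := by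
    simp only [cr, PiLp.sub_apply]
    ring
  have f1 : 0 ≤ cr u u' * cr m (v - z) := mul_nonneg hc.le m1
  have f2 : 0 ≤ cr u u' * cr m (v' - z) := mul_nonneg hc.le m2
  rw [e1] at f1
  rw [e2] at f2
  -- `cr u' (z - v) ≤ 0`
  have g1 : cr u' (z - v) ≤ 0 := by
    by_contra hcon
    push Not at hcon
    have := mul_pos h1 hcon
    have := mul_nonneg h2.le a0
    linarith
  have g2 : cr u (z - v') ≤ 0 := by
    by_contra hcon
    push Not at hcon
    have := mul_pos h2 hcon
    have := mul_nonneg h1.le b0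
    linarith
  have L1 : |cr u (z - v)| ≤ ‖v - v'‖ := by
    have := abs_cr_le (x := v - v') hu.1
    have := (abs_le.1 this).1
    rw [abs_of_nonneg a0]
    linarith
  have L2 : |cr u' (z - v)| ≤ ‖v - v'‖ := by
    have := abs_cr_le (x := v - v') hu'.1
    have := (abs_le.1 this).2
    rw [abs_of_nonpos g1]
    linarith
  have hx : cr u u' • (z - v) = cr (z - v) u' • u + cr u (z - v) • u' := by
    ext i
    fin_cases i
    · simp [cr]
      ring
    · simp [cr]
      ring
  have hn : cr u u' * ‖z - v‖ ≤ 2 * ‖v - v'‖ := by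
    calc cr u u' * ‖z - v‖ = ‖cr u u' • (z - v)‖ := by
          rw [norm_smul, Real.norm_of_nonneg hc.le]
      _ = ‖cr (z - v) u' • u + cr u (z - v) • u'‖ := by rw [hx]
      _ ≤ ‖cr (z - v) u' • u‖ + ‖cr u (z - v) • u'‖ := norm_add_le _ _
      _ = |cr (z - v) u'| + |cr u (z - v)| := by
          rw [norm_smul, norm_smul, norm_of_unit hu.1, norm_of_unit hu'.1, mul_one, mul_one,
            Real.norm_eq_abs, Real.norm_eq_abs]
      _ = |cr u' (z - v)| + |cr u (z - v)| := by
          congr 1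
          rw [← abs_neg]
          congr 1
          simp only [cr]
          ring
      _ ≤ 2 * ‖v - v'‖ := by linarith
  rw [le_div_iff₀ hτ]
  have h0 := norm_nonneg (z - v)
  nlinarith

end C2305bFat
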